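import Mathlib

/-!
# An atom in the wavelength capacity distribution of a quantum graph

On the figure eight graph (one vertex `v` with two loops of rationally independent lengths
`ℓ₁, ℓ₂`) the Neumann domain containing `v` of every generic eigenfunction has wavelength capacity
exactly `2`. So the distribution of the wavelength capacity at `v` is the point mass at `2`.

The generic eigenfunctions are those with `k (ℓ₁ + ℓ₂) / 2 ∈ π ℤ`; they are even on both loops, and
the two phases `k ℓ_j / 2` modulo `π`, which are in `(0, π)`, add up to `π`.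
-/

set_option autoImplicit false

open MeasureTheory Filter Topology

namespace Pool.Agent.Results.MP_ecbb05_mp.FigureEight

/-! ### Definitions

A finite graph is given by two maps `src tgt : E → V` (loops and multiple edges allowed); the edge
`e` is the interval `[0, ℓ e]` with the end `0` at `src e` and the end `ℓ e` at `tgt e`. -/

/-- the degree of a vertex; a loop counts twice -/
noncomputable def degree {V E : Type} (src tgt : E → V) (v : V) : ℕ :=
  {e | src e = v}.ncard + {e | tgt e = v}.ncard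

/-- the graph is connected -/
def Conn {V E : Type} (src tgt : E → V) : Prop := Nonempty V ∧
  ∀ v w : V, Relation.EqvGen (fun x y => ∃ e, src e = x ∧ tgt e = y) v w

/-- `f` solves `-f'' = k² f` on every edge and satisfies the Neumann-Kirchhoff conditions: it is
continuous at the vertices (`φ` is its restriction to the vertices) and at every vertex the sum of
the outgoing derivatives is `0`.  The function `f e` on `[0, ℓ e]` is extended to the whole real
line by the differential equation (the extension is unique). -/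
def IsSol {V E : Type} (src tgt : E → V) (ℓ : E → ℝ) (k : ℝ) (f : E → ℝ → ℝ) : Prop :=
  (∀ e, ContDiff ℝ 2 (f e)) ∧ (∀ e x, deriv (deriv (f e)) x = -k ^ 2 * f e x) ∧
  (∃ φ : V → ℝ, ∀ e, f e 0 = φ (src e) ∧ f e (ℓ e) = φ (tgt e)) ∧
  ∀ v, ∑ᶠ e ∈ {e | src e = v}, deriv (f e) 0 - ∑ᶠ e ∈ {e | tgt e = v}, deriv (f e) (ℓ e) = 0

/-- the multiplicity of the eigenvalue `k²` (`0` if it is not an eigenvalue): the dimension of the
space of solutions -/
noncomputable def mult {V E : Type} (src tgt : E → V) (ℓ : E → ℝ) (k : ℝ) : ℕ :=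
  Set.finrank ℝ {f | IsSol src tgt ℓ k f}

/-- the number of eigenvalues in `[0, k²)`, with multiplicity; for an eigenvalue `k²`, this is its
smallest index `n` in `0 = k_0² < k_1² ≤ k_2² ≤ …` -/
noncomputable def below {V E : Type} (src tgt : E → V) (ℓ : E → ℝ) (k : ℝ) : ℕ :=
  ∑ᶠ s ∈ Set.Ico 0 k, mult src tgt ℓ s

/-- `n` is a generic index: `f` is the `n`-th eigenfunction and `k²` the `n`-th eigenvalue, it is
simple, `f` vanishes at no vertex and no outgoing derivative of `f` at an interior vertex (of degree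
`≠ 1`) vanishes -/
def Generic {V E : Type} (src tgt : E → V) (ℓ : E → ℝ) (n : ℕ) (k : ℝ) (f : E → ℝ → ℝ) : Prop :=
  0 ≤ k ∧ below src tgt ℓ k = n ∧ mult src tgt ℓ k = 1 ∧ IsSol src tgt ℓ k f ∧
    (∀ e, f e 0 ≠ 0 ∧ f e (ℓ e) ≠ 0) ∧
    ∀ e, (degree src tgt (src e) ≠ 1 → deriv (f e) 0 ≠ 0) ∧
      (degree src tgt (tgt e) ≠ 1 → deriv (f e) (ℓ e) ≠ 0)

/-- One step in the graph without its Neumann points. The points of the graph are the vertices
`inl v` and the points `inr (e, x)` of the edges, `0 ≤ x ≤ ℓ e`; the point `(e, 0)` is joined to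
`src e`, the point `(e, ℓ e)` is joined to `tgt e`, and two points `(e, x)`, `(e, y)` are joined if
there is no interior point of the edge between them (including them) at which the derivative of `f`
vanishes. -/
inductive Step {V E : Type} (src tgt : E → V) (ℓ : E → ℝ) (f : E → ℝ → ℝ) :
    V ⊕ (E × ℝ) → V ⊕ (E × ℝ) → Prop
  | start (e : E) : Step src tgt ℓ f (Sum.inl (src e)) (Sum.inr (e, 0))
  | stop (e : E) : Step src tgt ℓ f (Sum.inl (tgt e)) (Sum.inr (e, ℓ e))
  | along (e : E) (x y : ℝ) (hx : x ∈ Set.Icc 0 (ℓ e)) (hy : y ∈ Set.Icc 0 (ℓ e))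
      (h : ∀ z ∈ Set.uIcc x y, z ∈ Set.Ioo 0 (ℓ e) → deriv (f e) z ≠ 0) :
      Step src tgt ℓ f (Sum.inr (e, x)) (Sum.inr (e, y))

/-- the part in the edge `e` of the Neumann domain of `f` containing the vertex `v` -/
def domain {V E : Type} (src tgt : E → V) (ℓ : E → ℝ) (f : E → ℝ → ℝ) (v : V) (e : E) : Set ℝ :=
  {x | Relation.EqvGen (Step src tgt ℓ f) (Sum.inl v) (Sum.inr (e, x))}

/-- the wavelength capacity `k |Ω| / π` of the Neumann domain containing `v` -/
noncomputable def capacity {V E : Type} (src tgt : E → V) (ℓ : E → ℝ) (k : ℝ) (f : E → ℝ → ℝ)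
    (v : V) : ℝ :=
  k * (∑ᶠ e, (volume (domain src tgt ℓ f v e)).toReal) / Real.pi

/-- the frequency, among the generic `n ≤ N`, of those with `ρ^(v)(n) ∈ (a, b)` -/
noncomputable def freq {V E : Type} (src tgt : E → V) (ℓ : E → ℝ) (v : V) (a b : ℝ) (N : ℕ) : ℝ :=
  ({n | n ≤ N ∧ ∃ k f, Generic src tgt ℓ n k f ∧ capacity src tgt ℓ k f v ∈ Set.Ioo a b}.ncard : ℝ) /
    ({n | n ≤ N ∧ ∃ k f, Generic src tgt ℓ n k f}.ncard : ℝ)

/-! ### The equation on one edge -/

theorem ode_form {f : ℝ → ℝ} {k : ℝ} (hk : 0 < k) (m : ℝ) (hf : ContDiff ℝ 2 f)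
    (h : ∀ x, deriv (deriv f) x = -k ^ 2 * f x) :
    (∀ x, f x = f m * Real.cos (k * (x - m)) + deriv f m / k * Real.sin (k * (x - m))) ∧
    ∀ x, deriv f x = -(k * f m) * Real.sin (k * (x - m)) + deriv f m * Real.cos (k * (x - m)) := by
  have hd : ∀ x, HasDerivAt f (deriv f x) x := fun x =>
    (hf.differentiable (by norm_num)).differentiableAt.hasDerivAt
  have hd2 : ∀ x, HasDerivAt (deriv f) (-k ^ 2 * f x) x := by
    intro x
    rw [← h x]
    have h1 : ContDiff ℝ 1 (deriv f) := by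
      have : ContDiff ℝ (1 + 1) f := by norm_num; exact hf
      exact (contDiff_succ_iff_deriv.1 this).2.2
    exact (h1.differentiable (by norm_num)).differentiableAt.hasDerivAt
  have ha : ∀ x : ℝ, HasDerivAt (fun x : ℝ => k * (x - m)) k x := by
    intro x
    have := ((hasDerivAt_id x).sub_const m).const_mul k
    simpa using this
  -- two constants of the motion
  have h1 : ∀ x, HasDerivAt (fun x => k * f x * Real.cos (k * (x - m)) -
      deriv f x * Real.sin (k * (x - m))) 0 x := by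
    intro x
    have e1 := ((hd x).const_mul k).mul (ha x).cos
    have e2 := (hd2 x).mul (ha x).sin
    refine (e1.sub e2).congr_deriv ?_
    ring
  have h2 : ∀ x, HasDerivAt (fun x => k * f x * Real.sin (k * (x - m)) +
      deriv f x * Real.cos (k * (x - m))) 0 x := by
    intro x
    have e1 := ((hd x).const_mul k).mul (ha x).sin
    have e2 := (hd2 x).mul (ha x).cos
    refine (e1.add e2).congr_deriv ?_
    ring
  have c1 : ∀ x, k * f x * Real.cos (k * (x - m)) - deriv f x * Real.sin (k * (x - m)) = k * f m := by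
    intro x
    have := is_const_of_deriv_eq_zero (fun x => (h1 x).differentiableAt) (fun x => (h1 x).deriv) x m
    simpa using this
  have c2 : ∀ x, k * f x * Real.sin (k * (x - m)) + deriv f x * Real.cos (k * (x - m))
      = deriv f m := by
    intro x
    have := is_const_of_deriv_eq_zero (fun x => (h2 x).differentiableAt) (fun x => (h2 x).deriv) x m
    simpa using this
  constructor
  · intro x
    have hs := Real.sin_sq_add_cos_sq (k * (x - m))
    have e1 : k * f x = k * f m * Real.cos (k * (x - m)) + deriv f m * Real.sin (k * (x - m)) := by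
      rw [← c1 x, ← c2 x]
      linear_combination (-(k * f x)) * hs
    have : f x = (k * f x) / k := by field_simp
    rw [this, e1]
    field_simp
  · intro x
    have hs := Real.sin_sq_add_cos_sq (k * (x - m))
    rw [← c2 x]
    have := c1 x
    linear_combination (-(deriv f x)) * hs - Real.sin (k * (x - m)) * this

/-! ### The figure eight -/

/-- both ends of both edges are at the only vertex -/
def s8 : Bool → Unit := fun _ => ()

theorem sum8 (g : Bool → ℝ) (v : Unit) : ∑ᶠ e ∈ {e | s8 e = v}, g e = g false + g true := by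
  have h : {e | s8 e = v} = Set.univ := by
    ext e
    simp [s8]
  rw [h, finsum_mem_univ, finsum_eq_sum_of_fintype, Fintype.sum_bool, add_comm]

theorem degree8 (v : Unit) : degree s8 s8 v = 4 := by
  have h : {e | s8 e = v} = Set.univ := by
    ext e
    simp [s8]
  unfold degree
  rw [h, Set.ncard_univ]
  simp

theorem conn8 : Conn s8 s8 :=
  ⟨⟨()⟩, fun _ _ => Relation.EqvGen.refl _⟩

/-- the integer relations between the lengths -/
theorem indep8 {ℓ : Bool → ℝ} (hl : LinearIndependent ℚ ℓ) (p q : ℤ)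
    (h : (p : ℝ) * ℓ false = q * ℓ true) : p = 0 ∧ q = 0 := by
  have h1 := Fintype.linearIndependent_iff.1 hl (fun e => if e then -(q : ℚ) else (p : ℚ)) (by
    rw [Fintype.sum_bool]
    simp only [if_true, Bool.false_eq_true, if_false, Rat.smul_def]
    push_cast
    linarith)
  have h2 := h1 false
  have h3 := h1 true
  simp only [if_true, Bool.false_eq_true, if_false] at h2 h3
  constructor
  · exact_mod_cast h2
  · have : (q : ℚ) = 0 := by linarith
    exact_mod_cast this

/-- the form of the solutions -/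
theorem form8 {ℓ : Bool → ℝ} {k : ℝ} (hk : 0 < k) {f : Bool → ℝ → ℝ} (hf : IsSol s8 s8 ℓ k f) :
    ∃ (a b : Bool → ℝ) (φ : ℝ),
      (∀ e x, f e x = a e * Real.cos (k * (x - ℓ e / 2)) + b e * Real.sin (k * (x - ℓ e / 2))) ∧
      (∀ e x, deriv (f e) x = -(k * a e) * Real.sin (k * (x - ℓ e / 2)) +
        k * b e * Real.cos (k * (x - ℓ e / 2))) ∧
      (∀ e, b e * Real.sin (k * ℓ e / 2) = 0) ∧ (∀ e, a e * Real.cos (k * ℓ e / 2) = φ) ∧
      a false * Real.sin (k * ℓ false / 2) + a true * Real.sin (k * ℓ true / 2) = 0 ∧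
      ∀ e, f e 0 = φ ∧ f e (ℓ e) = φ := by
  obtain ⟨h1, h2, ⟨φ, h3⟩, h4⟩ := hf
  have hform := fun e => ode_form hk (ℓ e / 2) (h1 e) (h2 e)
  obtain ⟨a, ha⟩ : ∃ a : Bool → ℝ, ∀ e, a e = f e (ℓ e / 2) := ⟨_, fun _ => rfl⟩
  obtain ⟨b, hb⟩ : ∃ b : Bool → ℝ, ∀ e, b e = deriv (f e) (ℓ e / 2) / k := ⟨_, fun _ => rfl⟩
  have hb' : ∀ e, deriv (f e) (ℓ e / 2) = k * b e := fun e => by
    rw [hb]; field_simp
  have f1 : ∀ e x, f e x = a e * Real.cos (k * (x - ℓ e / 2)) +
      b e * Real.sin (k * (x - ℓ e / 2)) := by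
    intro e x
    rw [(hform e).1 x, ha, hb]
  have f2 : ∀ e x, deriv (f e) x = -(k * a e) * Real.sin (k * (x - ℓ e / 2)) +
      k * b e * Real.cos (k * (x - ℓ e / 2)) := by
    intro e x
    rw [(hform e).2 x, ha, hb']
  have e0 : ∀ e, k * (0 - ℓ e / 2) = -(k * ℓ e / 2) := fun e => by ring
  have e1 : ∀ e, k * (ℓ e - ℓ e / 2) = k * ℓ e / 2 := fun e => by ring
  have g0 : ∀ e, a e * Real.cos (k * ℓ e / 2) - b e * Real.sin (k * ℓ e / 2) = φ () := by
    intro e
    have := (h3 e).1
    rw [f1, e0, Real.cos_neg, Real.sin_neg] at this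
    have h5 : φ (s8 e) = φ () := rfl
    linarith
  have g1 : ∀ e, a e * Real.cos (k * ℓ e / 2) + b e * Real.sin (k * ℓ e / 2) = φ () := by
    intro e
    have := (h3 e).2
    rw [f1, e1] at this
    have h5 : φ (s8 e) = φ () := rfl
    linarith
  refine ⟨a, b, φ (), f1, f2, fun e => by linarith [g0 e, g1 e], fun e => by
    linarith [g0 e, g1 e], ?_, fun e => h3 e⟩
  have h5 := h4 ()
  rw [sum8 (fun e => deriv (f e) 0), sum8 (fun e => deriv (f e) (ℓ e))] at h5
  simp only [f2, e0, e1, Real.sin_neg, Real.cos_neg] at h5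
  have h6 : 2 * k * (a false * Real.sin (k * ℓ false / 2) + a true * Real.sin (k * ℓ true / 2))
      = 0 := by linarith
  rcases mul_eq_zero.1 h6 with h7 | h7
  · linarith
  · exact h7

/-- nonzero solutions exist only if one of three sines vanishes -/
theorem secular8 {ℓ : Bool → ℝ} {k : ℝ} (hk : 0 < k) {f : Bool → ℝ → ℝ} (hf : IsSol s8 s8 ℓ k f)
    (hne : f ≠ 0) : Real.sin (k * ℓ false / 2) = 0 ∨ Real.sin (k * ℓ true / 2) = 0 ∨
      Real.sin (k * (ℓ false + ℓ true) / 2) = 0 := by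
  obtain ⟨a, b, φ, h1, h2, h3, h4, h5, h6⟩ := form8 hk hf
  by_contra hcon
  push Not at hcon
  obtain ⟨n1, n2, n3⟩ := hcon
  have hb : ∀ e, b e = 0 := by
    intro e
    rcases mul_eq_zero.1 (h3 e) with h | h
    · exact h
    · cases e
      · exact absurd h n1
      · exact absurd h n2
  have hs : Real.sin (k * (ℓ false + ℓ true) / 2) =
      Real.sin (k * ℓ false / 2) * Real.cos (k * ℓ true / 2) +
        Real.cos (k * ℓ false / 2) * Real.sin (k * ℓ true / 2) := by
    rw [← Real.sin_add]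
    congr 1
    ring
  have h7 : a false * a true * Real.sin (k * (ℓ false + ℓ true) / 2) = 0 := by
    rw [hs]
    have e1 := h4 false
    have e2 := h4 true
    linear_combination (a false * Real.sin (k * ℓ false / 2)) * e2 +
      (a true * Real.sin (k * ℓ true / 2)) * e1 + φ * h5
  have h8 : a false = 0 ∨ a true = 0 := by
    rcases mul_eq_zero.1 h7 with h | h
    · exact mul_eq_zero.1 h
    · exact absurd h n3
  have h9 : a false = 0 ∧ a true = 0 := by
    rcases h8 with h | h
    · refine ⟨h, ?_⟩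
      rw [h, zero_mul, zero_add] at h5
      exact (mul_eq_zero.1 h5).resolve_right n2
    · refine ⟨?_, h⟩
      rw [h, zero_mul, add_zero] at h5
      exact (mul_eq_zero.1 h5).resolve_right n1
  apply hne
  funext e x
  rw [h1 e x, hb e]
  cases e
  · rw [h9.1]; simp
  · rw [h9.2]; simp

/-- what the genericity conditions say on the figure eight -/
theorem generic8 {ℓ : Bool → ℝ} (hl : LinearIndependent ℚ ℓ) {n : ℕ} {k : ℝ} {f : Bool → ℝ → ℝ}
    (hg : Generic s8 s8 ℓ n k f) : 0 < k ∧ (∀ e, Real.sin (k * ℓ e / 2) ≠ 0) ∧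
      Real.sin (k * (ℓ false + ℓ true) / 2) = 0 ∧
      ∃ a : Bool → ℝ, (∀ e, a e ≠ 0) ∧
        ∀ e x, deriv (f e) x = -(k * a e) * Real.sin (k * (x - ℓ e / 2)) := by
  obtain ⟨hk0, -, -, hsol, hv, hd⟩ := hg
  have hk : 0 < k := by
    refine lt_of_le_of_ne hk0 ?_
    rintro rfl
    obtain ⟨h1, h2, ⟨φ, h3⟩, h4⟩ := hsol
    have hd2 : ∀ x, deriv (deriv (f false)) x = 0 := fun x => by rw [h2]; ring
    have hdf : Differentiable ℝ (deriv (f false)) := by
      have : ContDiff ℝ (1 + 1) (f false) := by norm_num; exact h1 false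
      exact ((contDiff_succ_iff_deriv.1 this).2.2).differentiable (by norm_num)
    have hc : ∀ x, deriv (f false) x = deriv (f false) 0 := fun x =>
      is_const_of_deriv_eq_zero hdf hd2 x 0
    have hff : Differentiable ℝ (f false) := (h1 false).differentiable (by norm_num)
    have hd3 : ∀ x, HasDerivAt (fun x => f false x - deriv (f false) 0 * x) 0 x := by
      intro x
      have e1 := (hff x).hasDerivAt
      have e2 := (hasDerivAt_id x).const_mul (deriv (f false) 0)
      refine (e1.sub e2).congr_deriv ?_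
      rw [hc x]; ring
    have h5 := is_const_of_deriv_eq_zero (fun x => (hd3 x).differentiableAt)
      (fun x => (hd3 x).deriv) (ℓ false) 0
    simp only [mul_zero, sub_zero] at h5
    have h6 : f false (ℓ false) = f false 0 := (h3 false).2.trans (h3 false).1.symm
    have h7 : deriv (f false) 0 * ℓ false = 0 := by linarith
    rcases mul_eq_zero.1 h7 with h | h
    · exact (hd false).1 (by rw [degree8]; norm_num) h
    · exact hl.ne_zero false h
  obtain ⟨a, b, φ, h1, h2, h3, h4, h5, h6⟩ := form8 hk hsol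
  have hφ : φ ≠ 0 := by
    rw [← (h6 false).1]
    exact (hv false).1
  have ha : ∀ e, a e ≠ 0 := by
    intro e h
    apply hφ
    rw [← h4 e, h, zero_mul]
  have hsin : ∀ e, Real.sin (k * ℓ e / 2) ≠ 0 := by
    have hboth : ¬ (Real.sin (k * ℓ false / 2) = 0 ∧ Real.sin (k * ℓ true / 2) = 0) := by
      rintro ⟨h7, h8⟩
      obtain ⟨p, hp⟩ := Real.sin_eq_zero_iff.1 h7
      obtain ⟨q, hq⟩ := Real.sin_eq_zero_iff.1 h8
      have h9 : (q : ℝ) * ℓ false = p * ℓ true := by
        have e1 : ℓ false = 2 * (p * Real.pi) / k := by rw [hp]; field_simp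
        have e2 : ℓ true = 2 * (q * Real.pi) / k := by rw [hq]; field_simp
        rw [e1, e2]
        ring
      obtain ⟨-, hp0⟩ := indep8 hl q p h9
      rw [hp0, Int.cast_zero, zero_mul] at hp
      have : k * ℓ false = 0 := by linarith
      rcases mul_eq_zero.1 this with h | h
      · exact hk.ne' h
      · exact hl.ne_zero false h
    intro e h
    cases e
    · refine hboth ⟨h, ?_⟩
      rw [h, mul_zero, zero_add] at h5
      exact (mul_eq_zero.1 h5).resolve_left (ha true)
    · refine hboth ⟨?_, h⟩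
      rw [h, mul_zero, add_zero] at h5
      exact (mul_eq_zero.1 h5).resolve_left (ha false)
  have hb : ∀ e, b e = 0 := fun e => (mul_eq_zero.1 (h3 e)).resolve_right (hsin e)
  refine ⟨hk, hsin, ?_, a, ha, fun e x => by rw [h2 e x, hb e]; ring⟩
  have hs : Real.sin (k * (ℓ false + ℓ true) / 2) =
      Real.sin (k * ℓ false / 2) * Real.cos (k * ℓ true / 2) +
        Real.cos (k * ℓ false / 2) * Real.sin (k * ℓ true / 2) := by
    rw [← Real.sin_add]
    congr 1
    ring
  have h7 : a false * a true * Real.sin (k * (ℓ false + ℓ true) / 2) = 0 := by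
    rw [hs]
    have e1 := h4 false
    have e2 := h4 true
    linear_combination (a false * Real.sin (k * ℓ false / 2)) * e2 +
      (a true * Real.sin (k * ℓ true / 2)) * e1 + φ * h5
  exact (mul_eq_zero.1 h7).resolve_left (mul_ne_zero (ha false) (ha true))

/-! ### The Neumann domain -/

/-- a phase in `(0, π)` -/
theorem phase {y : ℝ} (hy : 0 < y) (h : Real.sin y ≠ 0) :
    ∃ (θ : ℝ) (j : ℕ), 0 < θ ∧ θ < Real.pi ∧ y = θ + j * Real.pi := by
  have hpi := Real.pi_pos
  have h1 := Nat.floor_le (show 0 ≤ y / Real.pi by positivity)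
  have h2 := Nat.lt_floor_add_one (y / Real.pi)
  rw [le_div_iff₀ hpi] at h1
  rw [div_lt_iff₀ hpi] at h2
  refine ⟨y - ⌊y / Real.pi⌋₊ * Real.pi, ⌊y / Real.pi⌋₊, ?_, by linarith, by ring⟩
  refine lt_of_le_of_ne (by linarith) ?_
  intro h3
  apply h
  have : y = (⌊y / Real.pi⌋₊ : ℝ) * Real.pi := by linarith
  rw [this]
  exact Real.sin_nat_mul_pi _

/-- the part in the edge `e` of the Neumann domain of an eigenfunction which is even on the loops -/
theorem domain8 {ℓ : Bool → ℝ} (hℓ : ∀ e, 0 < ℓ e) {k : ℝ} (hk : 0 < k) {f : Bool → ℝ → ℝ}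
    {a θ : Bool → ℝ} {j : Bool → ℕ} (ha : ∀ e, a e ≠ 0)
    (hf : ∀ e x, deriv (f e) x = -(k * a e) * Real.sin (k * (x - ℓ e / 2)))
    (h0 : ∀ e, 0 < θ e) (hpi : ∀ e, θ e < Real.pi) (hθ : ∀ e, k * ℓ e / 2 = θ e + j e * Real.pi)
    (v : Unit) (e : Bool) :
    domain s8 s8 ℓ f v e = Set.Ico 0 (θ e / k) ∪ Set.Ioc (ℓ e - θ e / k) (ℓ e) := by
  have hd0 : ∀ e, 0 < θ e / k := fun e => div_pos (h0 e) hk
  have hkd : ∀ e, k * (θ e / k) = θ e := fun e => by field_simp
  have hd2 : ∀ e, θ e / k ≤ ℓ e / 2 := by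
    intro e
    rw [div_le_iff₀ hk]
    have h1 := hθ e
    have h2 : (0 : ℝ) ≤ j e * Real.pi := by positivity
    nlinarith
  -- the derivative at points at distance less than `θ / k` from the ends
  have hz1 : ∀ e z, 0 < z → z < θ e / k → deriv (f e) z ≠ 0 := by
    intro e z hz0 hz1 h
    rw [hf] at h
    have h2 : Real.sin (k * (z - ℓ e / 2)) = 0 :=
      (mul_eq_zero.1 h).resolve_left (neg_ne_zero.2 (mul_ne_zero hk.ne' (ha e)))
    have h3 : k * (z - ℓ e / 2) = (k * z - θ e) - j e * Real.pi := by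
      have := hθ e
      linarith
    rw [h3, Real.sin_sub_nat_mul_pi] at h2
    have h4 : Real.sin (k * z - θ e) = 0 := by
      rcases mul_eq_zero.1 h2 with h5 | h5
      · exact absurd h5 (pow_ne_zero _ (by norm_num))
      · exact h5
    have h5 : k * z < θ e := by
      have := mul_lt_mul_of_pos_left hz1 hk
      rwa [hkd] at this
    have h6 : Real.sin (k * z - θ e) < 0 :=
      Real.sin_neg_of_neg_of_neg_pi_lt (by linarith) (by have := hpi e; nlinarith)
    exact h6.ne h4
  have hz2 : ∀ e z, ℓ e - θ e / k < z → z < ℓ e → deriv (f e) z ≠ 0 := by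
    intro e z h1 h2 h
    refine hz1 e (ℓ e - z) (by linarith) (by linarith) ?_
    rw [hf] at h ⊢
    have h3 : k * (ℓ e - z - ℓ e / 2) = -(k * (z - ℓ e / 2)) := by ring
    rw [h3, Real.sin_neg]
    linarith
  have hz3 : ∀ e, deriv (f e) (θ e / k) = 0 := by
    intro e
    rw [hf]
    have h3 : k * (θ e / k - ℓ e / 2) = 0 - j e * Real.pi := by
      have h4 := hθ e
      have h5 := hkd e
      linarith
    rw [h3, Real.sin_sub_nat_mul_pi, Real.sin_zero]
    ring
  have hz4 : ∀ e, deriv (f e) (ℓ e - θ e / k) = 0 := by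
    intro e
    have h1 := hz3 e
    rw [hf] at h1 ⊢
    have h3 : k * (ℓ e - θ e / k - ℓ e / 2) = -(k * (θ e / k - ℓ e / 2)) := by ring
    rw [h3, Real.sin_neg]
    linarith
  have hI1 : ∀ e, θ e / k ∈ Set.Ioo 0 (ℓ e) := fun e =>
    ⟨hd0 e, by have := hd2 e; have := hℓ e; linarith⟩
  have hI2 : ∀ e, ℓ e - θ e / k ∈ Set.Ioo 0 (ℓ e) := fun e =>
    ⟨by have := (hI1 e).2; linarith, by have := hd0 e; linarith⟩
  -- the invariant
  let P : Unit ⊕ (Bool × ℝ) → Prop := fun p => match p with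
    | Sum.inl _ => True
    | Sum.inr (e, x) => x ∈ Set.Ico 0 (θ e / k) ∪ Set.Ioc (ℓ e - θ e / k) (ℓ e)
  have half : ∀ (e : Bool) (x y : ℝ), x ∈ Set.Icc 0 (ℓ e) → y ∈ Set.Icc 0 (ℓ e) →
      (∀ z ∈ Set.uIcc x y, z ∈ Set.Ioo 0 (ℓ e) → deriv (f e) z ≠ 0) →
      x ∈ Set.Ico 0 (θ e / k) ∪ Set.Ioc (ℓ e - θ e / k) (ℓ e) →
      y ∈ Set.Ico 0 (θ e / k) ∪ Set.Ioc (ℓ e - θ e / k) (ℓ e) := by
    intro e x y hx hy h hxd
    by_contra hyd
    rw [Set.mem_union, not_or, Set.mem_Ico, Set.mem_Ioc] at hyd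
    obtain ⟨hy1, hy2⟩ := hyd
    have hy3 : θ e / k ≤ y := by
      by_contra hlt
      exact hy1 ⟨hy.1, not_le.1 hlt⟩
    have hy4 : y ≤ ℓ e - θ e / k := by
      by_contra hlt
      exact hy2 ⟨not_le.1 hlt, hy.2⟩
    rcases hxd with hx1 | hx1
    · refine h (θ e / k) ?_ (hI1 e) (hz3 e)
      rw [Set.mem_uIcc]
      left
      exact ⟨hx1.2.le, hy3⟩
    · refine h (ℓ e - θ e / k) ?_ (hI2 e) (hz4 e)
      rw [Set.mem_uIcc]
      right
      exact ⟨hy4, hx1.1.le⟩
  have hstep : ∀ p q, Step s8 s8 ℓ f p q → (P p ↔ P q) := by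
    intro p q hpq
    cases hpq with
    | start e =>
      simp only [P, true_iff]
      left
      exact ⟨le_rfl, hd0 e⟩
    | stop e =>
      simp only [P, true_iff]
      right
      exact ⟨by have := hd0 e; linarith, le_rfl⟩
    | along e x y hx hy h =>
      refine ⟨half e x y hx hy h, half e y x hy hx ?_⟩
      rwa [Set.uIcc_comm]
  have heqv : ∀ p q, Relation.EqvGen (Step s8 s8 ℓ f) p q → (P p ↔ P q) := by
    intro p q hpq
    induction hpq with
    | rel x y h => exact hstep x y h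
    | refl x => exact Iff.rfl
    | symm x y _ ih => exact ih.symm
    | trans x y z _ _ ih1 ih2 => exact ih1.trans ih2
  ext x
  constructor
  · intro hx
    exact (heqv _ _ hx).1 trivial
  · rintro (hx | hx)
    · refine Relation.EqvGen.trans _ (Sum.inr (e, 0)) _ (Relation.EqvGen.rel _ _ (Step.start e)) ?_
      refine Relation.EqvGen.rel _ _ (Step.along e 0 x ⟨le_rfl, (hℓ e).le⟩
        ⟨hx.1, by have := hx.2; have := (hI1 e).2; linarith⟩ ?_)
      intro z hz hz'
      rw [Set.uIcc_of_le hx.1] at hz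
      exact hz1 e z hz'.1 (lt_of_le_of_lt hz.2 hx.2)
    · refine Relation.EqvGen.trans _ (Sum.inr (e, ℓ e)) _ (Relation.EqvGen.rel _ _ (Step.stop e)) ?_
      refine Relation.EqvGen.rel _ _ (Step.along e (ℓ e) x ⟨(hℓ e).le, le_rfl⟩
        ⟨by have := hx.1; have := (hI2 e).1; linarith, hx.2⟩ ?_)
      intro z hz hz'
      rw [Set.uIcc_of_ge hx.2] at hz
      exact hz2 e z (lt_of_lt_of_le hx.1 hz.1) hz'.2

/-- **The wavelength capacity of every generic eigenfunction is `2`.** -/
theorem capacity8 {ℓ : Bool → ℝ} (hℓ : ∀ e, 0 < ℓ e) (hl : LinearIndependent ℚ ℓ) {n : ℕ} {k : ℝ}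
    {f : Bool → ℝ → ℝ} (hg : Generic s8 s8 ℓ n k f) (v : Unit) : capacity s8 s8 ℓ k f v = 2 := by
  obtain ⟨hk, hsin, hsum, a, ha, hf⟩ := generic8 hl hg
  have hph : ∀ e, ∃ (θ : ℝ) (j : ℕ), 0 < θ ∧ θ < Real.pi ∧ k * ℓ e / 2 = θ + j * Real.pi :=
    fun e => phase (by have := hℓ e; positivity) (hsin e)
  choose θ j h0 hpi hθ using hph
  have hvol : ∀ e, (volume (domain s8 s8 ℓ f v e)).toReal = 2 * (θ e / k) := by
    intro e
    rw [domain8 hℓ hk ha hf h0 hpi hθ v e]
    have hd0 : 0 < θ e / k := div_pos (h0 e) hk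
    have hd2 : θ e / k ≤ ℓ e / 2 := by
      rw [div_le_iff₀ hk]
      have h1 := hθ e
      have h2 : (0 : ℝ) ≤ j e * Real.pi := by positivity
      nlinarith
    rw [measure_union ?_ measurableSet_Ioc, Real.volume_Ico, Real.volume_Ioc,
      ← ENNReal.ofReal_add (by linarith) (by linarith), ENNReal.toReal_ofReal (by linarith)]
    · ring
    · rw [Set.disjoint_left]
      intro x hx hx'
      have h1 := hx.2
      have h2 := hx'.1
      linarith
  have hsumθ : θ false + θ true = Real.pi := by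
    have e1 : k * (ℓ false + ℓ true) / 2 =
        (θ false + θ true) + ((j false + j true : ℕ) : ℝ) * Real.pi := by
      have := hθ false
      have := hθ true
      push_cast
      linarith
    rw [e1, Real.sin_add_nat_mul_pi] at hsum
    have e2 : Real.sin (θ false + θ true) = 0 := by
      rcases mul_eq_zero.1 hsum with h5 | h5
      · exact absurd h5 (pow_ne_zero _ (by norm_num))
      · exact h5
    obtain ⟨m, hm⟩ := Real.sin_eq_zero_iff.1 e2
    have hp := Real.pi_pos
    have b1 := h0 false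
    have b2 := h0 true
    have b3 := hpi false
    have b4 := hpi true
    have m1 : 0 < m := by
      by_contra hle
      have : (m : ℝ) ≤ 0 := by exact_mod_cast not_lt.1 hle
      nlinarith
    have m2 : m < 2 := by
      by_contra hle
      have : (2 : ℝ) ≤ m := by exact_mod_cast not_lt.1 hle
      nlinarith
    have m3 : m = 1 := by omega
    rw [← hm, m3]
    simp
  unfold capacity
  rw [finsum_eq_sum_of_fintype, Fintype.sum_bool, hvol, hvol]
  have hp := Real.pi_pos.ne'
  have e1 : k * (2 * (θ true / k) + 2 * (θ false / k)) = 2 * (θ false + θ true) := by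
    field_simp
    ring
  rw [e1, hsumθ]
  field_simp

/-! ### The spectrum -/

theorem isSol_zero_const {ℓ : Bool → ℝ} (hℓ : ∀ e, 0 < ℓ e) {f : Bool → ℝ → ℝ}
    (hf : IsSol s8 s8 ℓ 0 f) : ∃ c : ℝ, f = fun _ _ => c := by
  obtain ⟨h1, h2, ⟨φ, h3⟩, h4⟩ := hf
  refine ⟨φ (), ?_⟩
  funext e
  have hd2 : ∀ x, deriv (deriv (f e)) x = 0 := fun x => by rw [h2]; ring
  have hdf : Differentiable ℝ (deriv (f e)) := by
    have : ContDiff ℝ (1 + 1) (f e) := by norm_num; exact h1 e
    exact ((contDiff_succ_iff_deriv.1 this).2.2).differentiable (by norm_num)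
  have hc : ∀ x, deriv (f e) x = deriv (f e) 0 := fun x =>
    is_const_of_deriv_eq_zero hdf hd2 x 0
  have hff : Differentiable ℝ (f e) := (h1 e).differentiable (by norm_num)
  have hd3 : ∀ x, HasDerivAt (fun x => f e x - deriv (f e) 0 * x) 0 x := by
    intro x
    have e1 := (hff x).hasDerivAt
    have e2 := (hasDerivAt_id x).const_mul (deriv (f e) 0)
    refine (e1.sub e2).congr_deriv ?_
    rw [hc x]; ring
  have h5 : ∀ x, f e x - deriv (f e) 0 * x = f e 0 := by
    intro x
    have := is_const_of_deriv_eq_zero (fun x => (hd3 x).differentiableAt)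
      (fun x => (hd3 x).deriv) x 0
    simpa using this
  have h6 : f e (ℓ e) = f e 0 := (h3 e).2.trans (h3 e).1.symm
  have h7 : deriv (f e) 0 * ℓ e = 0 := by have := h5 (ℓ e); linarith
  have h8 : deriv (f e) 0 = 0 := (mul_eq_zero.1 h7).resolve_right (hℓ e).ne'
  funext x
  have h9 := h5 x
  rw [h8, zero_mul, sub_zero] at h9
  rw [h9]
  exact (h3 e).1

/-- the eigenspaces have finite dimension -/
theorem fg8 {ℓ : Bool → ℝ} (hℓ : ∀ e, 0 < ℓ e) (k : ℝ) (hk : 0 ≤ k) :
    (Submodule.span ℝ {f | IsSol s8 s8 ℓ k f}).FG := by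
  have key : ∃ T : Set (Bool → ℝ → ℝ), T.Finite ∧
      {f | IsSol s8 s8 ℓ k f} ⊆ Submodule.span ℝ T := by
    rcases hk.eq_or_lt with rfl | hk
    · refine ⟨{fun _ _ => 1}, Set.finite_singleton _, ?_⟩
      intro f hf
      obtain ⟨c, rfl⟩ := isSol_zero_const hℓ hf
      rw [SetLike.mem_coe, Submodule.mem_span_singleton]
      refine ⟨c, ?_⟩
      funext e x
      simp
    · let C : Bool → (Bool → ℝ → ℝ) := fun e0 e x =>
        if e = e0 then Real.cos (k * (x - ℓ e / 2)) else 0
      let S : Bool → (Bool → ℝ → ℝ) := fun e0 e x =>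
        if e = e0 then Real.sin (k * (x - ℓ e / 2)) else 0
      refine ⟨Set.range C ∪ Set.range S, (Set.finite_range C).union (Set.finite_range S), ?_⟩
      intro f hf
      obtain ⟨a, b, φ, h1, -⟩ := form8 hk hf
      have h2 : f = (∑ e0, a e0 • C e0) + ∑ e0, b e0 • S e0 := by
        funext e x
        rw [h1]
        rw [Fintype.sum_bool, Fintype.sum_bool]
        cases e <;> simp [C, S]
      rw [h2]
      refine Submodule.add_mem _ (Submodule.sum_mem _ fun e0 _ => Submodule.smul_mem _ _ ?_)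
        (Submodule.sum_mem _ fun e0 _ => Submodule.smul_mem _ _ ?_)
      · exact Submodule.subset_span (Or.inl ⟨e0, rfl⟩)
      · exact Submodule.subset_span (Or.inr ⟨e0, rfl⟩)
  obtain ⟨T, hT, hsub⟩ := key
  have h1 : FiniteDimensional ℝ (Submodule.span ℝ T) := FiniteDimensional.span_of_finite ℝ hT
  have h2 : Submodule.span ℝ {f | IsSol s8 s8 ℓ k f} ≤ Submodule.span ℝ T :=
    Submodule.span_le.2 hsub
  have h3 : FiniteDimensional ℝ (Submodule.span ℝ {f | IsSol s8 s8 ℓ k f}) :=
    Submodule.finiteDimensional_of_le h2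
  exact Module.Finite.iff_fg.1 h3

theorem finite_sin (c k : ℝ) (hc : 0 < c) : {s : ℝ | 0 ≤ s ∧ s ≤ k ∧ Real.sin (s * c) = 0}.Finite := by
  refine ((Finset.range (⌈k * c / Real.pi⌉₊ + 1)).finite_toSet.image
    (fun n : ℕ => (n : ℝ) * Real.pi / c)).subset ?_
  rintro s ⟨h1, h2, h3⟩
  obtain ⟨n, hn⟩ := Real.sin_eq_zero_iff.1 h3
  have hp := Real.pi_pos
  have hn0 : 0 ≤ n := by
    by_contra hlt
    have h4 : (n : ℝ) ≤ -1 := by exact_mod_cast (show n ≤ -1 by omega)
    have h5 : 0 ≤ s * c := by positivity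
    nlinarith
  obtain ⟨m, rfl⟩ := Int.eq_ofNat_of_zero_le hn0
  refine ⟨m, ?_, ?_⟩
  · rw [Finset.mem_coe, Finset.mem_range]
    have h4 : (m : ℝ) ≤ k * c / Real.pi := by
      rw [le_div_iff₀ hp]
      have h5 : s * c ≤ k * c := mul_le_mul_of_nonneg_right h2 hc.le
      have h6 : ((m : ℤ) : ℝ) * Real.pi = s * c := hn
      push_cast at h6
      linarith
    have h5 := h4.trans (Nat.le_ceil _)
    have h6 : m ≤ ⌈k * c / Real.pi⌉₊ := by exact_mod_cast h5
    omega
  · have h6 : ((m : ℤ) : ℝ) * Real.pi = s * c := hn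
    push_cast at h6
    show (m : ℝ) * Real.pi / c = s
    rw [h6]
    field_simp

/-- finitely many eigenvalues below every bound -/
theorem finite8 {ℓ : Bool → ℝ} (hℓ : ∀ e, 0 < ℓ e) (k : ℝ) :
    {s | 0 ≤ s ∧ s ≤ k ∧ mult s8 s8 ℓ s ≠ 0}.Finite := by
  have h0 := hℓ false
  have h1 := hℓ true
  refine (((finite_sin (ℓ false / 2) k (by linarith)).union
    (finite_sin (ℓ true / 2) k (by linarith))).union
      (finite_sin ((ℓ false + ℓ true) / 2) k (by linarith))).subset ?_
  rintro s ⟨hs0, hsk, hm⟩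
  have e0 : s * (ℓ false / 2) = s * ℓ false / 2 := by ring
  have e1 : s * (ℓ true / 2) = s * ℓ true / 2 := by ring
  have e2 : s * ((ℓ false + ℓ true) / 2) = s * (ℓ false + ℓ true) / 2 := by ring
  simp only [Set.mem_union, Set.mem_setOf_eq, e0, e1, e2]
  rcases hs0.eq_or_lt with rfl | hs
  · left; left
    exact ⟨le_rfl, hsk, by simp⟩
  · by_cases hex : ∃ f, IsSol s8 s8 ℓ s f ∧ f ≠ 0
    · obtain ⟨f, hf, hne⟩ := hex
      rcases secular8 hs hf hne with h | h | h
      · exact Or.inl (Or.inl ⟨hs0, hsk, h⟩)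
      · exact Or.inl (Or.inr ⟨hs0, hsk, h⟩)
      · exact Or.inr ⟨hs0, hsk, h⟩
    · exfalso
      apply hm
      push Not at hex
      have h2 : Submodule.span ℝ {f | IsSol s8 s8 ℓ s f} = ⊥ := by
        rw [Submodule.span_eq_bot]
        exact fun f hf => hex f hf
      unfold mult Set.finrank
      rw [h2]
      exact finrank_bot ℝ _

theorem below_add {ℓ : Bool → ℝ} (hℓ : ∀ e, 0 < ℓ e) {k k' : ℝ} (h0 : 0 ≤ k) (h : k < k') :
    below s8 s8 ℓ k + mult s8 s8 ℓ k ≤ below s8 s8 ℓ k' := by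
  classical
  have hfin := finite8 hℓ k'
  have hform : ∀ q ≤ k', below s8 s8 ℓ q = ∑ s ∈ hfin.toFinset.filter (· < q), mult s8 s8 ℓ s := by
    intro q hq
    unfold below
    refine finsum_mem_eq_sum_of_inter_support_eq _ ?_
    ext s
    simp only [Set.mem_inter_iff, Set.mem_Ico, Function.mem_support, Finset.coe_filter,
      Set.Finite.mem_toFinset, Set.mem_setOf_eq]
    constructor
    · rintro ⟨⟨h1, h2⟩, h3⟩
      exact ⟨⟨⟨h1, by linarith, h3⟩, h2⟩, h3⟩
    · rintro ⟨⟨⟨h1, h2, h3⟩, h4⟩, -⟩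
      exact ⟨⟨h1, h4⟩, h3⟩
  rw [hform k h.le, hform k' le_rfl]
  by_cases hm : mult s8 s8 ℓ k = 0
  · rw [hm, add_zero]
    refine Finset.sum_le_sum_of_subset ?_
    intro s hs
    rw [Finset.mem_filter] at hs ⊢
    exact ⟨hs.1, hs.2.trans h⟩
  · have h1 : k ∉ hfin.toFinset.filter (· < k) := by simp
    rw [add_comm, ← Finset.sum_insert h1]
    refine Finset.sum_le_sum_of_subset ?_
    intro s hs
    rw [Finset.mem_insert] at hs
    rcases hs with rfl | hs
    · rw [Finset.mem_filter, Set.Finite.mem_toFinset]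
      exact ⟨⟨h0, h.le, hm⟩, h⟩
    · rw [Finset.mem_filter] at hs ⊢
      exact ⟨hs.1, hs.2.trans h⟩

/-! ### The generic eigenfunctions -/

/-- the eigenfunction which is even on both loops -/
noncomputable def f8 (ℓ : Bool → ℝ) (k : ℝ) (e : Bool) (x : ℝ) : ℝ :=
  (Real.cos (k * ℓ e / 2))⁻¹ * Real.cos (k * (x - ℓ e / 2))

theorem deriv_f8 (ℓ : Bool → ℝ) (k : ℝ) (e : Bool) (x : ℝ) :
    deriv (f8 ℓ k e) x = -(k * (Real.cos (k * ℓ e / 2))⁻¹) * Real.sin (k * (x - ℓ e / 2)) := by
  have h0 : HasDerivAt (fun x : ℝ => k * (x - ℓ e / 2)) k x := by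
    have := ((hasDerivAt_id x).sub_const (ℓ e / 2)).const_mul k
    simpa using this
  have h1 : HasDerivAt (f8 ℓ k e)
      (-(k * (Real.cos (k * ℓ e / 2))⁻¹) * Real.sin (k * (x - ℓ e / 2))) x := by
    refine (h0.cos.const_mul ((Real.cos (k * ℓ e / 2))⁻¹)).congr_deriv ?_
    ring
  exact h1.deriv

theorem deriv2_f8 (ℓ : Bool → ℝ) (k : ℝ) (e : Bool) (x : ℝ) :
    deriv (deriv (f8 ℓ k e)) x = -k ^ 2 * f8 ℓ k e x := by
  have h0 : HasDerivAt (fun x : ℝ => k * (x - ℓ e / 2)) k x := by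
    have := ((hasDerivAt_id x).sub_const (ℓ e / 2)).const_mul k
    simpa using this
  have h1 : deriv (f8 ℓ k e) = fun x =>
      -(k * (Real.cos (k * ℓ e / 2))⁻¹) * Real.sin (k * (x - ℓ e / 2)) :=
    funext fun x => deriv_f8 ℓ k e x
  rw [h1]
  have h2 := h0.sin.const_mul (-(k * (Real.cos (k * ℓ e / 2))⁻¹))
  rw [h2.deriv]
  unfold f8
  ring

/-- for `k (ℓ₁ + ℓ₂) / 2 = m π`, `m ≥ 1`, none of the sines and cosines vanishes -/
theorem nondeg8 {ℓ : Bool → ℝ} (hℓ : ∀ e, 0 < ℓ e) (hl : LinearIndependent ℚ ℓ) {m : ℕ}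
    (hm : 1 ≤ m) {k : ℝ} (hk : k * (ℓ false + ℓ true) / 2 = m * Real.pi) (e : Bool) :
    Real.sin (k * ℓ e / 2) ≠ 0 ∧ Real.cos (k * ℓ e / 2) ≠ 0 := by
  have hp := Real.pi_pos
  have h0 := hℓ false
  have h1 := hℓ true
  have hL : 0 < ℓ false + ℓ true := by linarith
  -- `k ℓ_e / 2` is not a half integer multiple of `π`
  have key : ∀ j : ℤ, k * ℓ e / 2 * 2 ≠ j * Real.pi := by
    intro j hj
    have hk' : k = 2 * (m * Real.pi) / (ℓ false + ℓ true) := by
      rw [← hk]; field_simp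
    have h2 : 2 * (m : ℝ) * ℓ e = j * (ℓ false + ℓ true) := by
      rw [hk'] at hj
      have h3 : 2 * (↑m * Real.pi) / (ℓ false + ℓ true) * ℓ e / 2 * 2 * (ℓ false + ℓ true) =
          j * Real.pi * (ℓ false + ℓ true) := by rw [hj]
      have h4 : 2 * (↑m * Real.pi) / (ℓ false + ℓ true) * ℓ e / 2 * 2 * (ℓ false + ℓ true) =
          2 * (m * Real.pi) * ℓ e := by field_simp
      rw [h4] at h3
      have h5 : Real.pi * (2 * (m : ℝ) * ℓ e) = Real.pi * (j * (ℓ false + ℓ true)) := by linarith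
      exact mul_left_cancel₀ hp.ne' h5
    cases e
    · have h3 : ((2 * m - j : ℤ) : ℝ) * ℓ false = (j : ℝ) * ℓ true := by push_cast; linarith
      obtain ⟨h4, h5⟩ := indep8 hl _ _ h3
      omega
    · have h3 : ((j : ℤ) : ℝ) * ℓ false = ((2 * m - j : ℤ) : ℝ) * ℓ true := by push_cast; linarith
      obtain ⟨h4, h5⟩ := indep8 hl _ _ h3
      omega
  constructor
  · intro h
    obtain ⟨j, hj⟩ := Real.sin_eq_zero_iff.1 h
    refine key (2 * j) ?_
    rw [← hj]
    push_cast
    ring
  · intro h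
    obtain ⟨j, hj⟩ := Real.cos_eq_zero_iff.1 h
    refine key (2 * j + 1) ?_
    rw [hj]
    push_cast
    ring

theorem isSol_f8 {ℓ : Bool → ℝ} (hℓ : ∀ e, 0 < ℓ e) (hl : LinearIndependent ℚ ℓ) {m : ℕ}
    (hm : 1 ≤ m) {k : ℝ} (hk : k * (ℓ false + ℓ true) / 2 = m * Real.pi) :
    IsSol s8 s8 ℓ k (f8 ℓ k) := by
  have hn := nondeg8 hℓ hl hm hk
  have e0 : ∀ e, k * (0 - ℓ e / 2) = -(k * ℓ e / 2) := fun e => by ring
  have e1 : ∀ e, k * (ℓ e - ℓ e / 2) = k * ℓ e / 2 := fun e => by ring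
  refine ⟨fun e => ?_, deriv2_f8 ℓ k, ⟨fun _ => 1, fun e => ⟨?_, ?_⟩⟩, fun v => ?_⟩
  · unfold f8
    fun_prop
  · unfold f8
    rw [e0, Real.cos_neg]
    exact inv_mul_cancel₀ (hn e).2
  · unfold f8
    rw [e1]
    exact inv_mul_cancel₀ (hn e).2
  · rw [sum8 (fun e => deriv (f8 ℓ k e) 0), sum8 (fun e => deriv (f8 ℓ k e) (ℓ e))]
    simp only [deriv_f8, e0, e1, Real.sin_neg]
    have h1 := (hn false).2
    have h2 := (hn true).2
    have hs : Real.sin (k * ℓ false / 2) * Real.cos (k * ℓ true / 2) +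
        Real.cos (k * ℓ false / 2) * Real.sin (k * ℓ true / 2) = 0 := by
      rw [← Real.sin_add]
      have : k * ℓ false / 2 + k * ℓ true / 2 = m * Real.pi := by rw [← hk]; ring
      rw [this]
      exact Real.sin_nat_mul_pi m
    field_simp
    linear_combination (2 * k) * hs

theorem generic_f8 {ℓ : Bool → ℝ} (hℓ : ∀ e, 0 < ℓ e) (hl : LinearIndependent ℚ ℓ) {m : ℕ}
    (hm : 1 ≤ m) {k : ℝ} (hk : k * (ℓ false + ℓ true) / 2 = m * Real.pi) :
    Generic s8 s8 ℓ (below s8 s8 ℓ k) k (f8 ℓ k) := by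
  have hn := nondeg8 hℓ hl hm hk
  have hp := Real.pi_pos
  have h0 := hℓ false
  have h1 := hℓ true
  have hm' : (1 : ℝ) ≤ m := by exact_mod_cast hm
  have hk0 : 0 < k := by
    by_contra hle
    have h2 : k * (ℓ false + ℓ true) ≤ 0 :=
      mul_nonpos_of_nonpos_of_nonneg (not_lt.1 hle) (by linarith)
    nlinarith
  have hsol := isSol_f8 hℓ hl hm hk
  have e0 : ∀ e, k * (0 - ℓ e / 2) = -(k * ℓ e / 2) := fun e => by ring
  have e1 : ∀ e, k * (ℓ e - ℓ e / 2) = k * ℓ e / 2 := fun e => by ring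
  have hv0 : ∀ e, f8 ℓ k e 0 = 1 := fun e => by
    unfold f8
    rw [e0, Real.cos_neg]
    exact inv_mul_cancel₀ (hn e).2
  have hv1 : ∀ e, f8 ℓ k e (ℓ e) = 1 := fun e => by
    unfold f8
    rw [e1]
    exact inv_mul_cancel₀ (hn e).2
  refine ⟨hk0.le, rfl, ?_, hsol, fun e => ⟨by rw [hv0]; exact one_ne_zero, by
    rw [hv1]; exact one_ne_zero⟩, fun e => ⟨fun _ => ?_, fun _ => ?_⟩⟩
  · have hspan : Submodule.span ℝ {f | IsSol s8 s8 ℓ k f} = Submodule.span ℝ {f8 ℓ k} := by
      apply le_antisymm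
      · refine Submodule.span_le.2 fun f hf => ?_
        rw [SetLike.mem_coe, Submodule.mem_span_singleton]
        obtain ⟨a, b, φ, g1, g2, g3, g4, g5, g6⟩ := form8 hk0 hf
        refine ⟨φ, ?_⟩
        funext e x
        rw [Pi.smul_apply, Pi.smul_apply, smul_eq_mul, g1 e x,
          (mul_eq_zero.1 (g3 e)).resolve_right (hn e).1, ← g4 e]
        unfold f8
        have := (hn e).2
        field_simp
        ring
      · refine Submodule.span_le.2 ?_
        rw [Set.singleton_subset_iff]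
        exact Submodule.subset_span hsol
    unfold mult Set.finrank
    rw [hspan]
    refine finrank_span_singleton ?_
    intro h
    have h3 := congrFun (congrFun h false) 0
    rw [hv0] at h3
    exact one_ne_zero h3
  · rw [deriv_f8, e0, Real.sin_neg]
    have := (hn e).1
    have := (hn e).2
    have := hk0.ne'
    simp only [neg_mul, mul_neg, neg_neg]
    positivity
  · rw [deriv_f8, e1]
    have := (hn e).1
    have := (hn e).2
    have := hk0.ne'
    simp only [neg_mul]
    exact neg_ne_zero.2 (by positivity)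

/-- there are infinitely many generic indices -/
theorem infinite8 {ℓ : Bool → ℝ} (hℓ : ∀ e, 0 < ℓ e) (hl : LinearIndependent ℚ ℓ) :
    {n | ∃ k f, Generic s8 s8 ℓ n k f}.Infinite := by
  have hp := Real.pi_pos
  have h0 := hℓ false
  have h1 := hℓ true
  have hL : 0 < ℓ false + ℓ true := by linarith
  let K : ℕ → ℝ := fun m => 2 * ((m + 1 : ℕ) * Real.pi) / (ℓ false + ℓ true)
  have hK : ∀ m, K m * (ℓ false + ℓ true) / 2 = (m + 1 : ℕ) * Real.pi := by
    intro m
    simp only [K]
    field_simp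
  have hmono : StrictMono K := by
    refine strictMono_nat_of_lt_succ fun m => ?_
    simp only [K]
    have h2 : ((m + 1 : ℕ) : ℝ) < ((m + 1 + 1 : ℕ) : ℝ) := by exact_mod_cast Nat.lt_succ_self _
    have h3 := mul_lt_mul_of_pos_right h2 hp
    exact div_lt_div_of_pos_right (by linarith) hL
  have hK0 : ∀ m, 0 ≤ K m := fun m => by
    simp only [K]
    positivity
  have hg := fun m => generic_f8 hℓ hl (Nat.succ_le_succ (Nat.zero_le m)) (hK m)
  have hb : StrictMono fun m => below s8 s8 ℓ (K m) := by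
    refine strictMono_nat_of_lt_succ fun m => ?_
    have h2 := below_add hℓ (hK0 m) (hmono (Nat.lt_succ_self m))
    have h3 : mult s8 s8 ℓ (K m) = 1 := (hg m).2.2.1
    rw [h3] at h2
    exact h2
  exact Set.infinite_of_injective_forall_mem hb.injective fun m => ⟨_, _, hg m⟩

theorem freq8 {ℓ : Bool → ℝ} (hℓ : ∀ e, 0 < ℓ e) (hl : LinearIndependent ℚ ℓ) (v : Unit)
    {a b : ℝ} (ha : a < 2) (hb : 2 < b) : Tendsto (freq s8 s8 ℓ v a b) atTop (𝓝 1) := by
  obtain ⟨n0, hn0⟩ := (infinite8 hℓ hl).nonempty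
  refine tendsto_const_nhds.congr' ?_
  filter_upwards [eventually_ge_atTop n0] with N hN
  have heq : {n | n ≤ N ∧ ∃ k f, Generic s8 s8 ℓ n k f ∧ capacity s8 s8 ℓ k f v ∈ Set.Ioo a b} =
      {n | n ≤ N ∧ ∃ k f, Generic s8 s8 ℓ n k f} := by
    ext n
    constructor
    · rintro ⟨h1, k, f, h2, -⟩
      exact ⟨h1, k, f, h2⟩
    · rintro ⟨h1, k, f, h2⟩
      refine ⟨h1, k, f, h2, ?_⟩
      rw [capacity8 hℓ hl h2 v]
      exact ⟨ha, hb⟩
  unfold freq
  rw [heq]
  have hfin : {n | n ≤ N ∧ ∃ k f, Generic s8 s8 ℓ n k f}.Finite :=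
    (Set.finite_Iic N).subset fun n hn => hn.1
  have hpos : 0 < {n | n ≤ N ∧ ∃ k f, Generic s8 s8 ℓ n k f}.ncard :=
    (Set.ncard_pos hfin).2 ⟨n0, hN, hn0⟩
  have hne : (({n | n ≤ N ∧ ∃ k f, Generic s8 s8 ℓ n k f}.ncard : ℕ) : ℝ) ≠ 0 := by
    exact_mod_cast hpos.ne'
  exact (div_self hne).symm

theorem exists_lengths : ∃ ℓ : Bool → ℝ, (∀ e, 0 < ℓ e) ∧ LinearIndependent ℚ ℓ := by
  refine ⟨fun e => if e then Real.sqrt 2 else 1, fun e => ?_, ?_⟩
  · cases e
    · simp
    · simp
  · rw [Fintype.linearIndependent_iff]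
    intro g hg
    rw [Fintype.sum_bool] at hg
    simp only [if_true, Bool.false_eq_true, if_false, Rat.smul_def, mul_one] at hg
    have h1 : g true = 0 := by
      by_contra hne
      have hne' : (g true : ℝ) ≠ 0 := by exact_mod_cast hne
      have h2 : Real.sqrt 2 = ((-(g false) / g true : ℚ) : ℝ) := by
        push_cast
        field_simp
        linarith
      exact irrational_sqrt_two ⟨_, h2.symm⟩
    have h2 : g false = 0 := by
      rw [h1, Rat.cast_zero, zero_mul, zero_add] at hg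
      exact_mod_cast hg
    intro e
    cases e
    · exact h2
    · exact h1

/-- **Disproof of Q1.** There is a finite connected graph (the figure eight) with all degrees at
least three such that, for all rationally independent positive edge lengths (and there are such
lengths), the spectrum is discrete, there are infinitely many generic eigenfunctions, and at every
vertex `v` the wavelength capacity of each generic eigenfunction is `2`. So for every interval
`(a, b)` which contains `2` the set of all `n` with `ρ^(v)(n) ∈ (a, b)` has density `1` in the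
generic `n`: the distribution has an atom of mass `1` at `2`. -/
theorem result : ∃ (V E : Type) (src tgt : E → V), Finite V ∧ Finite E ∧ Conn src tgt ∧
    (∀ v, 3 ≤ degree src tgt v) ∧ (∃ ℓ : E → ℝ, (∀ e, 0 < ℓ e) ∧ LinearIndependent ℚ ℓ) ∧
    ∀ ℓ : E → ℝ, (∀ e, 0 < ℓ e) → LinearIndependent ℚ ℓ →
      (∀ k, 0 ≤ k → (Submodule.span ℝ {f | IsSol src tgt ℓ k f}).FG) ∧
      (∀ k, {s | 0 ≤ s ∧ s ≤ k ∧ mult src tgt ℓ s ≠ 0}.Finite) ∧
      {n | ∃ k f, Generic src tgt ℓ n k f}.Infinite ∧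
      ∀ v, (∀ n k f, Generic src tgt ℓ n k f → capacity src tgt ℓ k f v = 2) ∧
        ∀ a b, a < 2 → 2 < b → Tendsto (freq src tgt ℓ v a b) atTop (𝓝 1) :=
  ⟨Unit, Bool, s8, s8, inferInstance, inferInstance, conn8, fun v => by rw [degree8]; norm_num,
    exists_lengths, fun ℓ hℓ hl => ⟨fg8 hℓ, finite8 hℓ, infinite8 hℓ hl, fun v =>
      ⟨fun n k f hg => capacity8 hℓ hl hg v, fun a b ha hb => freq8 hℓ hl v ha hb⟩⟩⟩

end Pool.Agent.Results.MP_ecbb05_mp.FigureEight
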